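import Pool.Agent.H599R3.Bu

/-!
# Every finitely generated diagram group has the Burillo property

Conventions (all definitions are in `Pool.Agent.H599R3`).

* A semigroup presentation is a set `R` of pairs `(u, v)` of words over `A` (relations `u = v`),
  both sides nonempty.
* `St A`: elementary rewritings `(x, (u, v), y, b)`, that is diagrams with exactly one cell:
  `x u y` becomes `x v y` if `b = true`, and `x v y` becomes `x u y` if `b = false`;
  `src`, `tgt` are the top and the bottom label, `bar` is the inverse (mirror image).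
* `Walk R a b l`: the list `l` of elementary rewritings leads from the word `a` to the word `b`;
  it describes an `(a, b)`-diagram over `R` whose cells are the members of `l`.
* `Flip`: two consecutive rewritings of disjoint subwords are exchanged;  `Same` is the generated
  equivalence relation: both lists describe the same planar diagram up to isotopy.
* `HasDipole`: a cell directly followed by its inverse;  `Reduced`: no list describing the same
  diagram has a dipole.
* `D R w` is the diagram group: closed walks at `w` modulo exchanging independent rewritings and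
  inserting or deleting dipoles (the fundamental group of the Squier complex at `w`);
  `cls R w l` is the element represented by the diagram `l`.
* `wordLength S g` is the word length of `g` with respect to `S`.
-/

set_option autoImplicit false

namespace Pool.Agent.Results.MP_5cc51b_al.BurilloAll

open Pool.Agent.H599R3

/-- Diagram length of `g`: the number of cells of the reduced `(w, w)`-diagram representing `g`. -/
noncomputable def numCells {A : Type} {R : Set (List A × List A)} {w : List A} (g : D R w) : ℕ :=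
  sInf {n : ℕ | ∃ l : List (St A), Walk R w w l ∧ Reduced l ∧ cls R w l = g ∧ l.length = n}

/-- The Burillo property of the diagram group over the presentation `R` with base word `w`: for
every finite generating set `S`, word length and diagram length are bi-Lipschitz equivalent. -/
def BurilloProperty {A : Type} (R : Set (List A × List A)) (w : List A) : Prop :=
  ∀ S : Set (D R w), S.Finite → Subgroup.closure S = ⊤ →
    ∃ C : ℝ, 1 ≤ C ∧ ∀ g : D R w,
      C⁻¹ * (wordLength S g : ℝ) ≤ (numCells g : ℝ) ∧ (numCells g : ℝ) ≤ C * (wordLength S g : ℝ)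

section
variable {A : Type} {R : Set (List A × List A)} {w : List A}

/-- Every element is represented by a reduced diagram, unique up to isotopy. -/
theorem exists_unique_reduced (hR : ∀ r ∈ R, r.1 ≠ [] ∧ r.2 ≠ []) (g : D R w) :
    ∃ z : List (St A), Walk R w w z ∧ Reduced z ∧ cls R w z = g ∧
      ∀ l : List (St A), Walk R w w l → Reduced l → cls R w l = g → Same l z := by
  obtain ⟨z, h1, h2, _, h4, h5⟩ := exists_normal hR g
  exact ⟨z, h1, h4, h2, fun l a1 a2 a3 => (h5 l a1 a3).2.2 a2⟩

/-- `numCells` is the number of cells of any reduced diagram representing the element. -/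
theorem numCells_eq (hR : ∀ r ∈ R, r.1 ≠ [] ∧ r.2 ≠ []) {l : List (St A)} (h1 : Walk R w w l)
    (h2 : Reduced l) : numCells (cls R w l) = l.length := by
  obtain ⟨z, a1, a2, a3, a4⟩ := exists_unique_reduced hR (cls R w l)
  have key : ∀ n ∈ {n : ℕ | ∃ m : List (St A), Walk R w w m ∧ Reduced m ∧ cls R w m = cls R w l ∧
      m.length = n}, n = l.length := by
    rintro n ⟨m, b1, b2, b3, rfl⟩
    rw [(a4 m b1 b2 b3).length, (a4 l h1 h2 rfl).length]
  exact key _ (Nat.sInf_mem (s := {n : ℕ | ∃ m : List (St A), Walk R w w m ∧ Reduced m ∧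
    cls R w m = cls R w l ∧ m.length = n}) ⟨_, l, h1, h2, rfl, rfl⟩)

theorem exists_min (hR : ∀ r ∈ R, r.1 ≠ [] ∧ r.2 ≠ []) (g : D R w) :
    ∃ z : List (St A), Walk R w w z ∧ cls R w z = g ∧ z.length = numCells g ∧
      Nf.Nrm pp iv (z.map pos) ∧ ∀ l, Walk R w w l → cls R w l = g →
        (z.length ≤ l.length ∧ (∀ t ∈ z, typ R t ∈ l.map (typ R))) := by
  obtain ⟨z, h1, h2, h3, h4, h5⟩ := exists_normal hR g
  refine ⟨z, h1, h2, ?_, h3, fun l a1 a2 => ⟨(h5 l a1 a2).1, (h5 l a1 a2).2.1⟩⟩
  rw [← h2, numCells_eq hR h1 h4]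

theorem numCells_le (hR : ∀ r ∈ R, r.1 ≠ [] ∧ r.2 ≠ []) {l : List (St A)} (h : Walk R w w l) :
    numCells (cls R w l) ≤ l.length := by
  obtain ⟨z, _, _, h3, _, h5⟩ := exists_min hR (cls R w l)
  rw [← h3]
  exact (h5 l h rfl).1

theorem numCells_mul (hR : ∀ r ∈ R, r.1 ≠ [] ∧ r.2 ≠ []) (g h : D R w) :
    numCells (g * h) ≤ numCells g + numCells h := by
  obtain ⟨z, z1, z2, z3, _⟩ := exists_min hR g
  obtain ⟨y, y1, y2, y3, _⟩ := exists_min hR h
  rw [← z3, ← y3, ← List.length_append, ← z2, ← y2, cls_mul z1 y1]
  exact numCells_le hR (z1.append y1)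

theorem numCells_inv (hR : ∀ r ∈ R, r.1 ≠ [] ∧ r.2 ≠ []) (g : D R w) :
    numCells g⁻¹ ≤ numCells g := by
  obtain ⟨z, z1, z2, z3, _⟩ := exists_min hR g
  have : z.length = (rv z).length := by simp [rv]
  rw [← z3, this, ← z2, ← cls_rv z1]
  exact numCells_le hR z1.rv

theorem numCells_one (hR : ∀ r ∈ R, r.1 ≠ [] ∧ r.2 ≠ []) : numCells (1 : D R w) = 0 := by
  have := numCells_le hR (w := w) (R := R) (l := []) rfl
  rw [cls_nil] at this
  simpa using this

theorem numCells_prod (hR : ∀ r ∈ R, r.1 ≠ [] ∧ r.2 ≠ []) {M : ℕ} {S : Set (D R w)}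
    (hM : ∀ s ∈ S, numCells s ≤ M) (l : List (D R w)) (hl : ∀ x ∈ l, x ∈ S ∨ x⁻¹ ∈ S) :
    numCells l.prod ≤ M * l.length := by
  induction l with
  | nil => simp [numCells_one hR]
  | cons x l ih =>
    have h1 := ih (fun y hy => hl y (List.mem_cons_of_mem _ hy))
    have h2 : numCells x ≤ M := by
      rcases hl x (by simp) with h | h
      · exact hM x h
      · have := numCells_inv hR x⁻¹
        rw [inv_inv] at this
        exact this.trans (hM _ h)
    rw [List.prod_cons, List.length_cons, Nat.mul_succ]
    have := numCells_mul hR x l.prod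
    omega

end

/-- **Main theorem.** Every finitely generated diagram group has the Burillo property. -/
theorem result {A : Type} (R : Set (List A × List A)) (hR : ∀ r ∈ R, r.1 ≠ [] ∧ r.2 ≠ [])
    (w : List A) (_hfg : Group.FG (D R w)) : BurilloProperty R w := by
  intro S hfin hS
  -- types of cells
  choose Z Z1 Z2 Z3 Z4 Z5 using fun g : D R w => exists_min hR g
  set Th0 : Set (St A) := ⋃ s ∈ S, {t | t ∈ (Z s).map (typ R)} with hTh0
  have f0 : Th0.Finite := hfin.biUnion (fun s _ => List.finite_toSet _)
  set Th : Set (St A) := Th0 ∪ bar '' Th0 with hTh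
  have f1 : Th.Finite := f0.union (f0.image _)
  have hbar : ∀ t : St A, typ R t ∈ Th → typ R (bar t) ∈ Th := by
    intro t ht
    have e : typ R (bar t) = bar (typ R t) := rfl
    rw [e]
    rcases ht with h | ⟨t', h, he⟩
    · exact Or.inr ⟨_, h, rfl⟩
    · left
      rw [← he, bar_bar]
      exact h
  have hall : ∀ g : D R w, ∃ l : List (St A), Walk R w w l ∧ cls R w l = g ∧
      ∀ t ∈ l, typ R t ∈ Th := by
    intro g
    have hg : g ∈ Subgroup.closure S := by rw [hS]; trivial
    induction hg using Subgroup.closure_induction with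
    | mem s hs =>
      refine ⟨Z s, Z1 s, Z2 s, fun t ht => Or.inl ?_⟩
      simp only [hTh0, Set.mem_iUnion]
      exact ⟨s, hs, List.mem_map_of_mem ht⟩
    | one => exact ⟨[], rfl, cls_nil, by simp⟩
    | mul x y _ _ hx hy =>
      obtain ⟨l, l1, l2, l3⟩ := hx
      obtain ⟨m, m1, m2, m3⟩ := hy
      refine ⟨l ++ m, l1.append m1, by rw [← cls_mul l1 m1, l2, m2], ?_⟩
      intro t ht
      rcases List.mem_append.1 ht with h | h
      · exact l3 t h
      · exact m3 t h
    | inv x _ hx =>
      obtain ⟨l, l1, l2, l3⟩ := hx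
      refine ⟨rv l, l1.rv, by rw [cls_rv l1, l2], ?_⟩
      intro t ht
      rw [rv, List.mem_reverse, List.mem_map] at ht
      obtain ⟨t', ht', rfl⟩ := ht
      exact hbar _ (l3 t' ht')
  have hZT : ∀ g, ∀ t ∈ Z g, typ R t ∈ Th := by
    intro g t ht
    obtain ⟨l, l1, l2, l3⟩ := hall g
    have := (Z5 g l l1 l2).2 t ht
    obtain ⟨t', ht', he⟩ := List.mem_map.1 this
    rw [← he]
    exact l3 t' ht'
  -- types of letters
  set Q : Set (List A × A × List A) := outTypes R Th ∪ wordTypes R w with hQdef
  have f2 : Q.Finite := (finite_outTypes f1).union (finite_wordTypes w)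
  obtain ⟨K, hK⟩ := (f1.image (fun t : St A => (out t.2.1 t.2.2.2).length)).bddAbove
  obtain ⟨B1, hB1⟩ := (f2.image (fun q => wordLength S (kap R w q.1 q.2.1 q.2.2))).bddAbove
  obtain ⟨B2, hB2⟩ := (f1.image (fun t => wordLength S (chi R w t))).bddAbove
  obtain ⟨M, hM⟩ := (hfin.image (fun s : D R w => numCells s)).bddAbove
  set B := max B1 B2 with hB
  have hBQ : ∀ q ∈ Q, wordLength S (kap R w q.1 q.2.1 q.2.2) ≤ B := fun q hq =>
    (hB1 ⟨q, hq, rfl⟩).trans (le_max_left _ _)
  have hBT : ∀ t ∈ Th, wordLength S (chi R w t) ≤ B := fun t ht =>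
    (hB2 ⟨t, ht, rfl⟩).trans (le_max_right _ _)
  have hKT : ∀ t ∈ Th, (out t.2.1 t.2.2.2).length ≤ K := fun t ht => hK ⟨t, ht, rfl⟩
  have hMS : ∀ s ∈ S, numCells s ≤ M := fun s hs => hM ⟨s, hs, rfl⟩
  -- the main estimate
  set C0 : ℕ := 2 * wordLength S (T R w [] w) + B * (2 * K + 1 + 2 * w.length) with hC0
  have main : ∀ g : D R w, wordLength S g ≤ C0 * numCells g := by
    intro g
    have h1 := cursor_bound (L := wordLength S) wordLength_one (wordLength_mul hS)
      (wordLength_inv hS) hBQ (Th := Th) Set.subset_union_left hBT hKT hR (Z g) [] w (Z1 g)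
      (Eqv.refl w) (fun m₁ a m₂ h => Or.inr ⟨m₁, a, m₂, h, rfl⟩) (hZT g) (Z4 g) (by
        intro t ht
        have hmem : t.2.1 ∈ R := (Z1 g).mem t (List.mem_of_mem_head? ht)
        have := hR _ hmem
        have h2 : 0 < (inn t.2.1 t.2.2.2).length := by
          rw [List.length_pos_iff]
          unfold inn
          split_ifs
          · exact this.1
          · exact this.2
        simp only [List.length_nil]
        omega)
    rw [← cls_val (Z1 g), Z2 g, Z3 g] at h1
    rcases Nat.eq_zero_or_pos (numCells g) with h0 | h0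
    · have h2 : Z g = [] := List.eq_nil_of_length_eq_zero (by rw [Z3 g, h0])
      have h3 := Z2 g
      rw [h2, cls_nil] at h3
      rw [← h3, wordLength_one]
      exact Nat.zero_le _
    · have e : g = (T R w [] w)⁻¹ * ((T R w [] w * g * (T R w [] w)⁻¹) * T R w [] w) := by
        group
      have h3 := wordLength_mul hS (T R w [] w)⁻¹ ((T R w [] w * g * (T R w [] w)⁻¹) * T R w [] w)
      have h4 := wordLength_mul hS (T R w [] w * g * (T R w [] w)⁻¹) (T R w [] w)
      rw [← e, wordLength_inv hS] at h3
      obtain ⟨n, hn⟩ : ∃ n, numCells g = n + 1 := ⟨numCells g - 1, by omega⟩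
      rw [hn] at h1 ⊢
      simp only [List.length_nil, add_zero] at h1
      have h5 : B * ((2 * K + 1) * (n + 1) + 2 * w.length) ≤
          B * ((2 * K + 1 + 2 * w.length) * (n + 1)) := by
        apply Nat.mul_le_mul_left
        have e5 : (2 * K + 1 + 2 * w.length) * (n + 1) =
            (2 * K + 1) * (n + 1) + 2 * w.length * (n + 1) := by ring
        rw [e5]
        exact Nat.add_le_add_left (Nat.le_mul_of_pos_right _ (by omega)) _
      have h6 : 2 * wordLength S (T R w [] w) ≤ 2 * wordLength S (T R w [] w) * (n + 1) :=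
        Nat.le_mul_of_pos_right _ (by omega)
      have h7 : C0 * (n + 1) = 2 * wordLength S (T R w [] w) * (n + 1) +
          B * ((2 * K + 1 + 2 * w.length) * (n + 1)) := by
        rw [hC0]; ring
      omega
  have upper : ∀ g : D R w, numCells g ≤ M * wordLength S g := by
    intro g
    obtain ⟨l, l1, l2, l3⟩ := exists_word hS g
    rw [← l3, ← l2]
    exact numCells_prod hR hMS l l1
  refine ⟨((max 1 (max C0 M) : ℕ) : ℝ), by exact_mod_cast le_max_left _ _, fun g => ⟨?_, ?_⟩⟩
  · have hpos : (0 : ℝ) < ((max 1 (max C0 M) : ℕ) : ℝ) := by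
      have : 1 ≤ max 1 (max C0 M) := le_max_left _ _
      exact_mod_cast this
    rw [inv_mul_le_iff₀ hpos]
    have h1 : wordLength S g ≤ max 1 (max C0 M) * numCells g :=
      (main g).trans (Nat.mul_le_mul_right _ ((le_max_left _ _).trans (le_max_right _ _)))
    exact_mod_cast h1
  · have h1 : numCells g ≤ max 1 (max C0 M) * wordLength S g :=
      (upper g).trans (Nat.mul_le_mul_right _ ((le_max_right _ _).trans (le_max_right _ _)))
    exact_mod_cast h1

end Pool.Agent.Results.MP_5cc51b_al.BurilloAll
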